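import Pool.Agent.W256.Curve4
import Pool.Agent.W243.TD.DegStm

set_option autoImplicit false

/-! Project TD, part SQ: squares of spaces in a field of transcendence degree one. -/

namespace Pool.Agent.W64.TD

open Polynomial IntermediateField Module Pool.Agent.W256
open scoped IntermediateField.algebraAdjoinAdjoin

variable {K F : Type*} [Field K] [Field F] [Algebra K F]

/-- algebraic elements are integral over everything -/
lemma integral_of_alg {h : F} (hh : IsAlgebraic K h) (g : F) : (ev K g).IsIntegralElem h := by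
  obtain ⟨p, hp, hx⟩ := hh.isIntegral
  refine ⟨p.map Polynomial.C, hp.map _, ?_⟩
  rw [eval₂_map]
  have e : (ev K g).comp Polynomial.C = algebraMap K F := by
    apply RingHom.ext
    intro a
    simp
  rw [e]
  exact hx

lemma alg_aeval {g : F} (hg : IsAlgebraic K g) (p : K[X]) :
    (algebraMap K F).IsIntegralElem (aeval g p) := by
  have hgi : (algebraMap K F).IsIntegralElem g := hg.isIntegral
  induction p using Polynomial.induction_on' with
  | add p q hp hq => rw [map_add]; exact hp.add _ hq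
  | monomial n a =>
    rw [aeval_monomial]
    refine RingHom.IsIntegralElem.mul _ (RingHom.isIntegralElem_map _) ?_
    induction n with
    | zero => rw [pow_zero]; exact RingHom.isIntegralElem_one _
    | succ n ih => rw [pow_succ]; exact ih.mul _ hgi

lemma alg_of_intAt {g f : F} {m : ℕ} (hg : IsAlgebraic K g) (h : IntAt K g f m) :
    IsAlgebraic K f := by
  have h1 := isIntegralElem_trans (algebraMap K F) (ev K g) (fun p => alg_aeval hg p) f h.fin
  have h2 : IsIntegral K f := h1
  exact h2.isAlgebraic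

/-- subadditivity of degrees -/
theorem deg_sub {u v : F} (tu : Transcendental K u) (tw : Transcendental K (v - u))
    (fu : FiniteDimensional K⟮u⟯ F) (fv : FiniteDimensional K⟮v⟯ F) :
    FiniteDimensional K⟮v - u⟯ F ∧
      finrank K⟮v - u⟯ F ≤ finrank K⟮u⟯ F + finrank K⟮v⟯ F := by
  set E := K⟮u⟯ ⊔ K⟮v⟯ with hE
  set w := v - u with hw
  have algv : IsAlgebraic K⟮u⟯ v := Algebra.IsAlgebraic.isAlgebraic v
  have algu : IsAlgebraic K⟮v⟯ u := Algebra.IsAlgebraic.isAlgebraic u
  have e1 : (minpoly K⟮u⟯ v).natDegree * finrank E F = finrank K⟮u⟯ F := by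
    rw [← relfinrank_sup u v algv]
    exact relfinrank_mul_finrank_top le_sup_left
  have e2 : (minpoly K⟮v⟯ u).natDegree * finrank E F = finrank K⟮v⟯ F := by
    rw [← relfinrank_sup v u algu, sup_comm, ← hE]
    exact relfinrank_mul_finrank_top le_sup_right
  set a' := (minpoly K⟮u⟯ v).natDegree with ha'
  set b' := (minpoly K⟮v⟯ u).natDegree with hb'
  have d1 : Pool.Agent.H297R2.DegLe K a' u v :=
    Pool.Agent.H297R2.degLe_of_minpoly algv le_rfl
  have d2 : Pool.Agent.H297R2.DegLe K b' v u :=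
    Pool.Agent.H297R2.degLe_of_minpoly algu le_rfl
  obtain ⟨P, hP0, hPa, hPb, hP⟩ := Pool.Agent.H297R2.simul u v tu a' b' d1 d2
  have d3 := Pool.Agent.H297R2.subst_deg P hP0 a' b' hPa hPb hP
  obtain ⟨algw, hd⟩ := d3.minpoly_le tw K⟮w⟯ (AdjoinSimple.gen K w)
    (AdjoinSimple.algebraMap_gen K w)
  have hEw : K⟮w⟯ ⊔ K⟮u⟯ = E := by
    apply le_antisymm
    · apply sup_le _ le_sup_left
      rw [adjoin_simple_le_iff]
      exact sub_mem ((le_sup_right : K⟮v⟯ ≤ E) (mem_adjoin_simple_self K v))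
        ((le_sup_left : K⟮u⟯ ≤ E) (mem_adjoin_simple_self K u))
    · apply sup_le le_sup_right
      rw [adjoin_simple_le_iff]
      have h1 : w + u ∈ K⟮w⟯ ⊔ K⟮u⟯ :=
        add_mem ((le_sup_left : K⟮w⟯ ≤ _) (mem_adjoin_simple_self K w))
          ((le_sup_right : K⟮u⟯ ≤ K⟮w⟯ ⊔ K⟮u⟯) (mem_adjoin_simple_self K u))
      rwa [hw, sub_add_cancel] at h1
  have e3 : (minpoly K⟮w⟯ u).natDegree * finrank E F = finrank K⟮w⟯ F := by
    rw [← relfinrank_sup w u algw, hEw]
    exact relfinrank_mul_finrank_top (hEw ▸ le_sup_left)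
  have hpos : 0 < finrank E F := by
    rcases Nat.eq_zero_or_pos (finrank E F) with h0 | h0
    · rw [h0, mul_zero] at e1
      exact absurd e1.symm (ne_of_gt finrank_pos)
    · exact h0
  have hposw : 0 < finrank K⟮w⟯ F := by
    rw [← e3]
    exact Nat.mul_pos (minpoly.natDegree_pos algw.isIntegral) hpos
  refine ⟨FiniteDimensional.of_finrank_pos hposw, ?_⟩
  rw [← e3]
  calc (minpoly K⟮w⟯ u).natDegree * finrank E F ≤ (a' + b') * finrank E F :=
        Nat.mul_le_mul_right _ hd
    _ = finrank K⟮u⟯ F + finrank K⟮v⟯ F := by rw [add_mul, e1, e2]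

lemma adjoin_smul (f : F) (t : K) (ht : t ≠ 0) : K⟮algebraMap K F t * f⟯ = K⟮f⟯ := by
  have ht' : algebraMap K F t ≠ 0 := by simpa using ht
  apply le_antisymm
  · rw [adjoin_simple_le_iff]
    exact mul_mem (IntermediateField.algebraMap_mem _ t) (mem_adjoin_simple_self K _)
  · rw [adjoin_simple_le_iff]
    have h1 : (algebraMap K F t)⁻¹ * (algebraMap K F t * f) ∈ K⟮algebraMap K F t * f⟯ :=
      mul_mem (inv_mem (IntermediateField.algebraMap_mem _ t)) (mem_adjoin_simple_self K _)
    rwa [← mul_assoc, inv_mul_cancel₀ ht', one_mul] at h1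

/-- subadditivity with a multiple -/
theorem deg_add_smul {u v : F} (t : K) (ht : t ≠ 0) (tv : Transcendental K v)
    (tw : Transcendental K (u + algebraMap K F t * v))
    (fu : FiniteDimensional K⟮u⟯ F) (fv : FiniteDimensional K⟮v⟯ F) :
    FiniteDimensional K⟮u + algebraMap K F t * v⟯ F ∧
      finrank K⟮u + algebraMap K F t * v⟯ F ≤ finrank K⟮u⟯ F + finrank K⟮v⟯ F := by
  have h1 : K⟮algebraMap K F (-t) * v⟯ = K⟮v⟯ := adjoin_smul v (-t) (neg_ne_zero.2 ht)
  have h2 : u + algebraMap K F t * v = u - algebraMap K F (-t) * v := by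
    rw [map_neg]; ring
  have tv' : Transcendental K (algebraMap K F (-t) * v) := by
    intro h
    apply tv
    have h3 : algebraMap K F (-t)⁻¹ * (algebraMap K F (-t) * v) = v := by
      rw [← mul_assoc, ← map_mul, inv_mul_cancel₀ (neg_ne_zero.2 ht), map_one, one_mul]
    rw [← h3]
    exact (isAlgebraic_algebraMap _).mul h
  have h3 := deg_sub (u := algebraMap K F (-t) * v) (v := u) tv' (by rwa [← h2])
    (by rw [h1]; exact fv) fu
  rw [← h2, h1] at h3
  exact ⟨h3.1, h3.2.trans (le_of_eq (Nat.add_comm _ _))⟩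

/-- generic combinations -/
theorem generic [Infinite K] (hdep : ∀ u v : F, ∃ P : MvPolynomial (Fin 2) K, P ≠ 0 ∧
    MvPolynomial.aeval ![u, v] P = 0) {ι : Type*} (f : ι → F)
    (ht : ∀ i, Transcendental K (f i)) (hf : ∀ i, FiniteDimensional K⟮f i⟯ F)
    (s : Finset ι) (hs : s.Nonempty) :
    ∃ g : F, Transcendental K g ∧ (∀ i ∈ s, IntAt K g (f i) 1) ∧ FiniteDimensional K⟮g⟯ F ∧
      finrank K⟮g⟯ F ≤ ∑ i ∈ s, finrank K⟮f i⟯ F := by
  classical
  induction hs using Finset.Nonempty.cons_induction with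
  | singleton i =>
    refine ⟨f i, ht i, ?_, hf i, by rw [Finset.sum_singleton]⟩
    intro j hj
    rw [Finset.mem_singleton] at hj
    rw [hj]
    exact IntAt.self _
  | cons i s hi hs ih =>
    obtain ⟨g, hgt, hg, hgf, hgd⟩ := ih
    obtain ⟨P, hP0, hP⟩ := hdep g (f i)
    obtain ⟨θ, hθ, hθt⟩ := normal_step g (f i) P hP0 hP
    obtain ⟨t, ht1⟩ := Infinite.exists_notMem_finset
      (insert 0 (θ.roots.toFinset.image (fun x => -x)))
    rw [Finset.mem_insert, not_or] at ht1
    have ht0 := ht1.1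
    have ht1 : θ.eval (-t) ≠ 0 := by
      intro h0
      apply ht1.2
      rw [Finset.mem_image]
      exact ⟨-t, by rw [Multiset.mem_toFinset, mem_roots hθ]; exact h0, neg_neg t⟩
    obtain ⟨h1, h2⟩ := hθt t ht1
    have htr : Transcendental K (g + algebraMap K F t * f i) := fun h => ht i (alg_of_intAt h h2)
    obtain ⟨h3, h4⟩ := deg_add_smul t ht0 (ht i) htr hgf (hf i)
    refine ⟨g + algebraMap K F t * f i, htr, ?_, h3, ?_⟩
    · intro j hj
      rcases Finset.mem_cons.mp hj with rfl | hj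
      · exact h2
      · exact h1.trans (hg j hj)
    · rw [Finset.sum_cons]
      omega

/-! ### the step -/

lemma sum_integral {A : Type*} [CommRing A] {ι : Type*} (φ : A →+* F) (s : Finset ι) (f : ι → F)
    (hf : ∀ i ∈ s, φ.IsIntegralElem (f i)) : φ.IsIntegralElem (∑ i ∈ s, f i) :=
  Finset.sum_induction f φ.IsIntegralElem (fun _ _ h1 h2 => h1.add _ h2)
    (RingHom.isIntegralElem_zero _) hf

lemma reduce {n : ℕ} (g : F) (hg : g ≠ 0) (x : Fin n → F) (N : ℕ) : ∀ p : Fin n → K[X],
    p ≠ 0 → (∀ i, (p i).natDegree ≤ N) → ∑ i, aeval g⁻¹ (p i) * x i = 0 →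
    ∃ q : Fin n → K[X], (∃ i, (q i).coeff 0 ≠ 0) ∧ ∑ i, aeval g⁻¹ (q i) * x i = 0 := by
  induction N with
  | zero =>
    intro p hp hN hs
    refine ⟨p, ?_, hs⟩
    by_contra hcon
    push Not at hcon
    apply hp
    funext i
    rw [Polynomial.eq_C_of_natDegree_le_zero (hN i), hcon i, C_0]
    rfl
  | succ N ih =>
    intro p hp hN hs
    by_cases hcon : ∃ i, (p i).coeff 0 ≠ 0
    · exact ⟨p, hcon, hs⟩
    push Not at hcon
    have hd : ∀ i, p i = (p i).divX * X := fun i => by
      have := (p i).divX_mul_X_add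
      rw [hcon i, C_0, add_zero] at this
      exact this.symm
    refine ih (fun i => (p i).divX) ?_ ?_ ?_
    · intro h0
      apply hp
      funext i
      have h1 := congrFun h0 i
      simp only [Pi.zero_apply] at h1
      rw [hd i, h1, zero_mul]
      rfl
    · intro i
      rw [natDegree_divX_eq_natDegree_tsub_one]
      have := hN i
      omega
    · have h1 : (∑ i, aeval g⁻¹ ((p i).divX) * x i) * g⁻¹ = 0 := by
        rw [← hs, Finset.sum_mul]
        refine Finset.sum_congr rfl fun i _ => ?_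
        conv_rhs => rw [hd i, map_mul, aeval_X]
        ring
      exact (mul_eq_zero.1 h1).resolve_right (inv_ne_zero hg)

/-- the step -/
theorem step (g : F) (hg : g ≠ 0) [FiniteDimensional K⟮g⟯ F] (x : Fin (finrank K⟮g⟯ F + 1) → F)
    (hx : ∀ i, (ev K g⁻¹).IsIntegralElem (x i)) :
    ∃ a : Fin (finrank K⟮g⟯ F + 1) → K, a ≠ 0 ∧
      (ev K g⁻¹).IsIntegralElem (g * ∑ i, a i • x i) := by
  have hgg : K⟮g⁻¹⟯ = K⟮g⟯ := by
    apply le_antisymm
    · rw [adjoin_simple_le_iff]
      exact inv_mem (mem_adjoin_simple_self K g)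
    · rw [adjoin_simple_le_iff]
      have := inv_mem (mem_adjoin_simple_self K g⁻¹)
      rwa [inv_inv] at this
  have hgf : finrank K⟮g⁻¹⟯ F = finrank K⟮g⟯ F := by rw [hgg]
  have hgd : FiniteDimensional K⟮g⁻¹⟯ F := by
    rw [hgg]
    infer_instance
  have hnl : ¬ LinearIndependent K⟮g⁻¹⟯ x := by
    intro h
    have := h.fintype_card_le_finrank
    rw [Fintype.card_fin, hgf] at this
    omega
  set R := Algebra.adjoin K {g⁻¹} with hR
  have hfr : IsFractionRing R K⟮g⁻¹⟯ := inferInstance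
  have hnl2 : ¬ LinearIndependent R x := by
    rwa [LinearIndependent.iff_fractionRing R K⟮g⁻¹⟯]
  rw [Fintype.not_linearIndependent_iff] at hnl2
  obtain ⟨r, hr, i₀, hi₀⟩ := hnl2
  have hp : ∀ i, ∃ p : K[X], aeval g⁻¹ p = (r i : F) := fun i => by
    have h1 : ∀ y ∈ Algebra.adjoin K {g⁻¹}, ∃ p : K[X], aeval g⁻¹ p = y := fun y hy => by
      rw [Algebra.adjoin_singleton_eq_range_aeval] at hy
      exact hy
    exact h1 _ (r i).2
  choose p hp using hp
  have hs : ∑ i, aeval g⁻¹ (p i) * x i = 0 := by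
    rw [← hr]
    refine Finset.sum_congr rfl fun i _ => ?_
    rw [hp i]
    rfl
  have hp0 : p ≠ 0 := by
    intro h0
    apply hi₀
    have h1 := hp i₀
    rw [h0] at h1
    apply Subtype.ext
    rw [← h1]
    simp
  obtain ⟨q, ⟨i₁, hi₁⟩, hq⟩ := reduce g hg x (Finset.univ.sup fun i => (p i).natDegree) p hp0
    (fun i => Finset.le_sup (f := fun i => (p i).natDegree) (Finset.mem_univ i)) hs
  refine ⟨fun i => (q i).coeff 0, fun h0 => hi₁ (congrFun h0 i₁), ?_⟩
  have h1 : g * ∑ i, (q i).coeff 0 • x i = ∑ i, -(aeval g⁻¹ ((q i).divX) * x i) := by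
    have h2 : ∀ i, aeval g⁻¹ (q i) * x i =
        g⁻¹ * (aeval g⁻¹ ((q i).divX) * x i) + (q i).coeff 0 • x i := fun i => by
      conv_lhs => rw [← (q i).divX_mul_X_add]
      rw [map_add, map_mul, aeval_X, aeval_C, Algebra.smul_def]
      ring
    rw [Finset.sum_congr rfl fun i _ => h2 i, Finset.sum_add_distrib, ← Finset.mul_sum] at hq
    rw [Finset.sum_neg_distrib]
    have h3 : g * (g⁻¹ * ∑ i, aeval g⁻¹ ((q i).divX) * x i + ∑ i, (q i).coeff 0 • x i) = 0 := by
      rw [hq, mul_zero]
    rw [mul_add, ← mul_assoc, mul_inv_cancel₀ hg, one_mul] at h3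
    linear_combination h3
  rw [h1]
  refine sum_integral _ _ _ fun i _ => ?_
  refine RingHom.IsIntegralElem.neg _ (RingHom.IsIntegralElem.mul _ ?_ (hx i))
  exact (ev K g⁻¹).isIntegralElem_map (x := (q i).divX)

/-- dimensions -/
lemma dim_le (A B : Submodule K F) [FiniteDimensional K B] (hAB : A ≤ B) (n : ℕ)
    (h : ∀ x : Fin (n + 1) → F, (∀ i, x i ∈ B) → ∃ a : Fin (n + 1) → K, a ≠ 0 ∧
      ∑ i, a i • x i ∈ A) : finrank K B ≤ n + finrank K A := by
  by_contra hcon
  push Not at hcon
  set A' : Submodule K B := A.comap B.subtype with hA'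
  have h1 : finrank K A' = finrank K A := by
    have h2 : A'.map B.subtype = A := by
      rw [hA', Submodule.map_comap_eq, inf_eq_right, Submodule.range_subtype]
      exact hAB
    rw [← h2]
    exact (Submodule.equivMapOfInjective B.subtype B.injective_subtype A').finrank_eq
  have h2 := A'.finrank_quotient_add_finrank
  obtain ⟨f, hf⟩ := exists_linearIndependent_of_le_finrank (R := K) (M := B ⧸ A') (n := n + 1)
    (by omega)
  choose y hy using fun i => Submodule.Quotient.mk_surjective A' (f i)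
  obtain ⟨a, ha, hs⟩ := h (fun i => (y i : F)) fun i => (y i).2
  apply ha
  have h3 : ∑ i, a i • f i = 0 := by
    have h4 : Submodule.Quotient.mk (p := A') (∑ i, a i • y i) = 0 := by
      rw [Submodule.Quotient.mk_eq_zero, hA', Submodule.mem_comap]
      simpa using hs
    rw [← h4, ← Submodule.mkQ_apply, map_sum]
    refine Finset.sum_congr rfl fun i _ => ?_
    rw [map_smul, Submodule.mkQ_apply, hy]
  funext i
  exact Fintype.linearIndependent_iff.1 hf a h3 i

/-- the Riemann-Roch spaces -/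
def LL (K : Type*) {F : Type*} [Field K] [Field F] [Algebra K F] (g : F) (m : ℕ) :
    Submodule K F where
  carrier := {h | (ev K g).IsIntegralElem h ∧ (ev K g⁻¹).IsIntegralElem (h * g⁻¹ ^ m)}
  add_mem' := fun {a b} ha hb => ⟨ha.1.add _ hb.1, by rw [add_mul]; exact ha.2.add _ hb.2⟩
  zero_mem' := ⟨RingHom.isIntegralElem_zero _, by
    rw [zero_mul]; exact RingHom.isIntegralElem_zero _⟩
  smul_mem' := fun c h hh => by
    have hc : ∀ g : F, (ev K g).IsIntegralElem (algebraMap K F c) := fun g =>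
      integral_of_alg (isAlgebraic_algebraMap c) g
    refine ⟨?_, ?_⟩
    · rw [Algebra.smul_def]; exact (hc g).mul _ hh.1
    · rw [Algebra.smul_def, mul_assoc]; exact (hc g⁻¹).mul _ hh.2

lemma mem_LL {g h : F} {m : ℕ} : h ∈ LL K g m ↔
    (ev K g).IsIntegralElem h ∧ (ev K g⁻¹).IsIntegralElem (h * g⁻¹ ^ m) := Iff.rfl

lemma LL_mono (g : F) (m : ℕ) : LL K g m ≤ LL K g (m + 1) := by
  intro h hh
  refine ⟨hh.1, ?_⟩
  rw [pow_succ, ← mul_assoc]
  refine hh.2.mul _ ?_
  have := (ev K g⁻¹).isIntegralElem_map (x := (X : K[X]))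
  simpa using this

lemma dim_step (g : F) (hg : g ≠ 0) [FiniteDimensional K⟮g⟯ F] (W : Submodule K F)
    [FiniteDimensional K W] (m : ℕ) :
    finrank K (W ⊓ LL K g (m + 1) : Submodule K F) ≤
      finrank K⟮g⟯ F + finrank K (W ⊓ LL K g m : Submodule K F) := by
  have : FiniteDimensional K (W ⊓ LL K g (m + 1) : Submodule K F) :=
    Submodule.finiteDimensional_inf_left W _
  refine dim_le _ _ (inf_le_inf_left _ (LL_mono g m)) _ fun x hx => ?_
  obtain ⟨a, ha, hs⟩ := step g hg (fun i => x i * g⁻¹ ^ (m + 1)) fun i => (hx i).2.2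
  refine ⟨a, ha, Submodule.sum_mem _ fun i _ => Submodule.smul_mem _ _ (hx i).1, ?_, ?_⟩
  · exact (Submodule.sum_mem (LL K g (m + 1))
      (fun i _ => Submodule.smul_mem _ _ (hx i).2) : ∑ i, a i • x i ∈ LL K g (m + 1)).1
  · have h1 : (∑ i, a i • x i) * g⁻¹ ^ m = g * ∑ i, a i • (x i * g⁻¹ ^ (m + 1)) := by
      rw [Finset.sum_mul, Finset.mul_sum]
      refine Finset.sum_congr rfl fun i _ => ?_
      rw [Algebra.smul_def, Algebra.smul_def, pow_succ]
      field_simp
    rw [h1]
    exact hs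

/-- elements without poles are algebraic -/
theorem alg_of_LL (g : F) (hg : Transcendental K g) [FiniteDimensional K⟮g⟯ F] {h : F}
    (hh : h ∈ LL K g 0) : IsAlgebraic K h := by
  obtain ⟨h1, h2⟩ := hh
  rw [pow_zero, mul_one] at h2
  set E := K⟮g⟯ with hE
  set g' : E := AdjoinSimple.gen K g with hg'
  have hgg : algebraMap E F g' = g := AdjoinSimple.algebraMap_gen K g
  set P := minpoly E h with hP
  have hcomp : (algebraMap E F).comp (ev K g') = ev K g := by
    apply RingHom.ext
    intro p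
    change algebraMap E F (aeval g' p) = aeval g p
    rw [← hgg, aeval_algebraMap_apply]
  have hcomp' : (algebraMap E F).comp (ev K g'⁻¹) = ev K g⁻¹ := by
    apply RingHom.ext
    intro p
    change algebraMap E F (aeval g'⁻¹ p) = aeval g⁻¹ p
    rw [← hgg, ← map_inv₀, aeval_algebraMap_apply]
  have hint : IsIntegral E h := Algebra.IsIntegral.isIntegral h
  have hmonic : P.Monic := minpoly.monic hint
  have hc : ∀ i, (ev K g).IsIntegralElem (algebraMap E F (P.coeff i)) := by
    intro i
    rw [← hcomp]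
    apply RingHom.IsIntegralElem.map
    apply coeff_minpoly_integral
    rw [hcomp]; exact h1
  have hc' : ∀ i, (ev K g⁻¹).IsIntegralElem (algebraMap E F (P.coeff i)) := by
    intro i
    rw [← hcomp']
    apply RingHom.IsIntegralElem.map
    apply coeff_minpoly_integral
    rw [hcomp']; exact h2
  have hconst : ∀ i, ∃ c : K, algebraMap K E c = P.coeff i := by
    intro i
    obtain ⟨p, hp, hpe⟩ := exists_poly_bounded g hg _ (P.coeff i).2 (hc i) 0 (by
      rw [pow_zero, mul_one]
      exact hc' i)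
    refine ⟨p.coeff 0, ?_⟩
    apply (algebraMap E F).injective
    rw [← IsScalarTower.algebraMap_apply K E F]
    have e : (algebraMap E F (P.coeff i)) = ((P.coeff i : E) : F) := rfl
    rw [e, hpe, Polynomial.eq_C_of_natDegree_le_zero hp, aeval_C]
    simp
  have hl : P ∈ lifts (algebraMap K E) := by
    rw [lifts_iff_coeff_lifts]
    exact hconst
  obtain ⟨Q, hQ, hQ1, hQm⟩ := lifts_and_natDegree_eq_and_monic hl hmonic
  refine ⟨Q, hQm.ne_zero, ?_⟩
  have h5 : aeval h P = 0 := minpoly.aeval E h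
  rw [← hQ, aeval_map_algebraMap] at h5
  exact h5

/-- spaces of algebraic elements -/
theorem dim_alg (z : F) (hz : Transcendental K z) [FiniteDimensional K⟮z⟯ F] (W : Submodule K F)
    [FiniteDimensional K W] (hW : ∀ x ∈ W, IsAlgebraic K x) : finrank K W ≤ finrank K⟮z⟯ F := by
  have hz0 : z ≠ 0 := by
    rintro rfl
    exact hz isAlgebraic_zero
  have h := dim_le (⊥ : Submodule K F) W bot_le (finrank K⟮z⟯ F) ?_
  · rwa [finrank_bot, add_zero] at h
  intro x hx
  obtain ⟨a, ha, hs⟩ := step z hz0 x fun i => integral_of_alg (hW _ (hx i)) _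
  refine ⟨a, ha, ?_⟩
  rw [Submodule.mem_bot]
  by_contra hne
  set e := ∑ i, a i • x i with he
  have heW : e ∈ W := Submodule.sum_mem _ fun i _ => Submodule.smul_mem _ _ (hx i)
  have h1 : (ev K z⁻¹).IsIntegralElem (z * e * e⁻¹) :=
    hs.mul _ (integral_of_alg (hW e heW).inv _)
  rw [mul_assoc, mul_inv_cancel₀ hne, mul_one] at h1
  obtain ⟨p, hp, hpe⟩ := exists_poly_bounded z hz z (mem_adjoin_simple_self K z)
    (by
      have := (ev K z).isIntegralElem_map (x := (X : K[X]))
      simpa using this) 0 (by rwa [pow_zero, mul_one])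
  rw [Polynomial.eq_C_of_natDegree_le_zero hp, aeval_C] at hpe
  apply hz
  rw [hpe]
  exact isAlgebraic_algebraMap _

lemma dep (x : F) (hx : Algebra.IsAlgebraic K⟮x⟯ F) (u v : F) :
    ∃ P : MvPolynomial (Fin 2) K, P ≠ 0 ∧ MvPolynomial.aeval ![u, v] P = 0 := by
  by_contra hcon
  push Not at hcon
  have h1 : AlgebraicIndependent K ![u, v] := by
    rw [algebraicIndependent_iff]
    intro p hp
    by_contra h0
    exact hcon p h0 hp
  have h2 := h1.lift_cardinalMk_le_trdeg
  have h3 : Algebra.IsAlgebraic (Algebra.adjoin K {x}) F :=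
    (IsFractionRing.comap_isAlgebraic_iff (A := Algebra.adjoin K {x}) (K := K⟮x⟯)).mpr hx
  have h4 : Algebra.trdeg K F ≤ 1 := by
    have := Algebra.IsAlgebraic.trdeg_le_cardinalMk K (A := F) {x}
    rwa [Cardinal.mk_singleton] at this
  have h5 := h2.trans (Cardinal.lift_le.mpr h4)
  simp at h5

/-- general statement: powers of a space -/
theorem pow_bound [Infinite K] {ι : Type*} [Fintype ι] (z : ι → F)
    (ht : ∀ i, Transcendental K (z i)) (hf : ∀ i, FiniteDimensional K⟮z i⟯ F) (j : ι) (m : ℕ) :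
    finrank K ((Submodule.span K (Set.range z)) ^ m : Submodule K F) ≤
      m * ∑ i, finrank K⟮z i⟯ F + finrank K⟮z j⟯ F := by
  classical
  obtain ⟨g, hgt, hg, hgf, hgd⟩ := generic (dep (z j) inferInstance) z ht hf Finset.univ
    ⟨j, Finset.mem_univ j⟩
  have hg0 : g ≠ 0 := by
    rintro rfl
    exact hgt isAlgebraic_zero
  set V := Submodule.span K (Set.range z) with hV
  have hVfd : FiniteDimensional K V := FiniteDimensional.span_of_finite K (Set.finite_range z)
  have hVg : V ≤ intSub K g 1 := by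
    rw [hV, Submodule.span_le]
    rintro x ⟨i, rfl⟩
    exact hg i (Finset.mem_univ _)
  set W : Submodule K F := V ^ m with hW
  have hWfd : FiniteDimensional K W :=
    Module.Finite.iff_fg.mpr (Submodule.FG.pow (Module.Finite.iff_fg.mp inferInstance) m)
  have hWg : W ≤ LL K g m := fun h hh => by
    have h1 : IntAt K g h m := pow_le_intSub hVg m hh
    exact ⟨h1.fin, h1.inf hg0⟩
  have hstep : ∀ k, finrank K (W ⊓ LL K g k : Submodule K F) ≤
      k * finrank K⟮g⟯ F + finrank K⟮z j⟯ F := by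
    intro k
    induction k with
    | zero =>
      rw [zero_mul, zero_add]
      have : FiniteDimensional K (W ⊓ LL K g 0 : Submodule K F) :=
        Submodule.finiteDimensional_inf_left W _
      exact dim_alg (z j) (ht j) _ fun x hx => alg_of_LL g hgt hx.2
    | succ k ih =>
      have h1 := dim_step g hg0 W k
      rw [Nat.add_mul, Nat.one_mul]
      omega
  have h1 := hstep m
  rw [inf_eq_left.2 hWg] at h1
  exact h1.trans (Nat.add_le_add_right (Nat.mul_le_mul_left _ hgd) _)

theorem sq : Pool.Agent.W243.TD.S_sq := by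
  intro F N z _ ht hf j
  have h := pow_bound z ht hf j 2
  rw [pow_two] at h
  exact h

end Pool.Agent.W64.TD
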