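import Pool.Agent.W243.TD.Stm

set_option autoImplicit false

/-! Project TD, part IND: the induction. -/

namespace Pool.Agent.W64.TD

open Finset Module Pool.Agent.W243.TD

/-- a `ℤ`-basis of the group of relations gives linearly independent points -/
lemma new_points {K : IntermediateField ℚ ℂ} {d l : ℕ} (z : Fin l → Fin d → K)
    (hz : LinearIndependent ℚ z) (G : AddSubgroup (Fin l → ℤ)) :
    ∃ s : Fin (finrank ℤ G) → Fin l → ℤ, (∀ k, s k ∈ G) ∧
      LinearIndependent ℚ (fun k => ∑ p, (s k p : K) • z p) := by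
  classical
  let B := Module.finBasis ℤ (AddSubgroup.toIntSubmodule G)
  let s : Fin (finrank ℤ G) → Fin l → ℤ := fun k => (B k : Fin l → ℤ)
  refine ⟨s, fun k => (B k).2, ?_⟩
  have h1 : LinearIndependent ℤ s := by
    have h2 := B.linearIndependent
    exact h2.map' (AddSubgroup.toIntSubmodule G).subtype (Submodule.ker_subtype _)
  -- the map to rational vectors
  let ι : (Fin l → ℤ) →ₗ[ℤ] (Fin l → ℚ) :=
    { toFun := fun v p => (v p : ℚ)
      map_add' := fun v w => by
        funext p
        simp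
      map_smul' := fun c v => by
        funext p
        simp }
  have hι : LinearMap.ker ι = ⊥ := by
    rw [LinearMap.ker_eq_bot]
    intro v w h
    funext p
    have h2 : ((v p : ℤ) : ℚ) = (w p : ℚ) := congrFun h p
    exact_mod_cast h2
  have h2 : LinearIndependent ℤ (ι ∘ s) := h1.map' ι hι
  have h3 : LinearIndependent ℚ (ι ∘ s) := (LinearIndependent.iff_fractionRing ℤ ℚ).1 h2
  let T : (Fin l → ℚ) →ₗ[ℚ] (Fin d → K) := Fintype.linearCombination ℚ z
  have hT : LinearMap.ker T = ⊥ := by
    rw [LinearMap.ker_eq_bot]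
    exact hz.fintypeLinearCombination_injective
  have h4 : LinearIndependent ℚ (T ∘ (ι ∘ s)) := h3.map' T hT
  have h5 : (T ∘ (ι ∘ s)) = fun k => ∑ p, (s k p : K) • z p := by
    funext k
    show Fintype.linearCombination ℚ z (fun p => ((s k p : ℤ) : ℚ)) = _
    rw [Fintype.linearCombination_apply]
    refine Finset.sum_congr rfl fun p _ => ?_
    funext i
    simp only [Pi.smul_apply, smul_eq_mul]
    rw [Rat.smul_def]
    push_cast
    rfl
  rw [← h5]
  exact h4

lemma al_exp {θ L : ℂ} {K : IntermediateField ℚ ℂ} {d l : ℕ} (z : Fin l → Fin d → K)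
    (hz : ∀ p i, Al θ (Complex.exp (L * z p i))) (s : Fin l → ℤ) (i : Fin d) :
    Al θ (Complex.exp (L * (((∑ p, (s p : K) • z p : Fin d → K) i : K) : ℂ))) := by
  have h1 : Complex.exp (L * (((∑ p, (s p : K) • z p : Fin d → K) i : K) : ℂ)) =
      ∏ p, Complex.exp (L * z p i) ^ (s p) := by
    have h2 : L * (((∑ p, (s p : K) • z p : Fin d → K) i : K) : ℂ) =
        ∑ p, (s p : ℂ) * (L * z p i) := by
      rw [Finset.sum_apply]
      simp only [Pi.smul_apply, smul_eq_mul]
      push_cast
      rw [Finset.mul_sum]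
      exact Finset.sum_congr rfl fun p _ => by ring
    rw [h2, Complex.exp_sum]
    exact Finset.prod_congr rfl fun p _ => Complex.exp_int_mul _ _
  rw [h1]
  have h3 : ∀ x : ℂ, Al θ x ↔ x ∈ algebraicClosure (IntermediateField.adjoin ℚ {θ}) ℂ := by
    intro x
    rw [mem_algebraicClosure_iff]
    rfl
  rw [h3]
  exact prod_mem fun p _ => zpow_mem ((h3 _).1 (hz p i)) _

/-- restriction to fewer coordinates -/
lemma case_a {C : ℕ} {L θ : ℂ} {K : IntermediateField ℚ ℂ} {d r : ℕ}
    (ih : ∀ (l : ℕ) (V : Submodule K (Fin d → K)) (z : Fin l → Fin d → K), finrank K V = r →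
      (∀ q : Fin d → ℚ, (fun i => (q i : K)) ∈ V → q = 0) → (∀ p, z p ∈ V) →
      (∀ p i, Al θ (Complex.exp (L * z p i))) → LinearIndependent ℚ z → l ≤ C * (r * (r + 1)))
    (l : ℕ) (V : Submodule K (Fin (d + 1) → K)) (z : Fin l → Fin (d + 1) → K)
    (hV : finrank K V = r)
    (hq : ∀ q : Fin (d + 1) → ℚ, (fun i => (q i : K)) ∈ V → q = 0) (hzV : ∀ p, z p ∈ V)
    (hze : ∀ p i, Al θ (Complex.exp (L * z p i))) (hz : LinearIndependent ℚ z)
    (c : Fin (d + 1) → ℚ) (hc : c ≠ 0) (hcV : ∀ v ∈ V, ∑ i, (c i : K) * v i = 0) :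
    l ≤ C * (r * (r + 1)) := by
  classical
  obtain ⟨i0, hi0⟩ : ∃ i, c i ≠ 0 := by
    by_contra h
    push Not at h
    exact hc (funext h)
  have hci : (c i0 : K) ≠ 0 := by exact_mod_cast hi0
  let π : (Fin (d + 1) → K) →ₗ[K] (Fin d → K) := LinearMap.funLeft K K i0.succAbove
  have hπ : ∀ v j, π v j = v (i0.succAbove j) := fun v j => rfl
  have hv0 : ∀ v ∈ V, v i0 = -(∑ j, (c (i0.succAbove j) : K) * v (i0.succAbove j)) / (c i0 : K) := by
    intro v hv
    have h1 := hcV v hv
    rw [Fin.sum_univ_succAbove _ i0] at h1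
    rw [eq_div_iff hci]
    linear_combination h1
  have hinj : ∀ v ∈ V, ∀ w ∈ V, π v = π w → v = w := by
    intro v hv w hw h
    funext i
    rcases Fin.eq_self_or_eq_succAbove i0 i with rfl | ⟨j, rfl⟩
    · rw [hv0 v hv, hv0 w hw]
      congr 2
      refine Finset.sum_congr rfl fun j _ => ?_
      have := congrFun h j
      rw [hπ, hπ] at this
      rw [this]
    · exact congrFun h j
  have hfr : finrank K (V.map π) = r := by
    have h1 : LinearMap.range (π.domRestrict V) = V.map π := LinearMap.range_domRestrict _ _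
    rw [← h1, LinearMap.finrank_range_of_inj, hV]
    intro v w h
    exact Subtype.ext (hinj v v.2 w w.2 h)
  refine ih l (V.map π) (fun p => π (z p)) hfr ?_ (fun p => ⟨z p, hzV p, rfl⟩)
    (fun p i => hze p _) ?_
  · rintro q ⟨v, hv, hvq⟩
    have h1 : ∀ j, v (i0.succAbove j) = (q j : K) := fun j => congrFun hvq j
    let q' : Fin (d + 1) → ℚ := i0.insertNth
      (-(∑ j, c (i0.succAbove j) * q j) / c i0) q
    have h2 : (fun i => (q' i : K)) = v := by
      funext i
      rcases Fin.eq_self_or_eq_succAbove i0 i with rfl | ⟨j, rfl⟩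
      · rw [hv0 v hv]
        simp only [q', Fin.insertNth_apply_same]
        push_cast
        congr 2
        exact Finset.sum_congr rfl fun j _ => by rw [h1]
      · simp only [q', Fin.insertNth_apply_succAbove]
        exact (h1 j).symm
    have h3 := hq q' (by rw [h2]; exact hv)
    funext j
    have h4 := congrFun h3 (i0.succAbove j)
    simp only [q', Fin.insertNth_apply_succAbove] at h4
    exact h4
  · have h1 : Set.InjOn (π.restrictScalars ℚ) (Submodule.span ℚ (Set.range z)) := by
      have h2 : ∀ v ∈ Submodule.span ℚ (Set.range z), v ∈ V := by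
        intro v hv
        have h3 : Submodule.span ℚ (Set.range z) ≤ V.restrictScalars ℚ := by
          rw [Submodule.span_le]
          rintro _ ⟨p, rfl⟩
          exact hzV p
        exact h3 hv
      intro v hv w hw h
      exact hinj v (h2 v hv) w (h2 w hw) h
    exact hz.map_injOn (π.restrictScalars ℚ) h1

theorem main : S_ind := by
  classical
  intro C L hstep θ hθ K hK
  suffices H : ∀ (r : ℕ), ∀ (d : ℕ) (l : ℕ) (V : Submodule K (Fin d → K)) (z : Fin l → Fin d → K),
      finrank K V = r → (∀ q : Fin d → ℚ, (fun i => (q i : K)) ∈ V → q = 0) → (∀ p, z p ∈ V) →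
      (∀ p i, Al θ (Complex.exp (L * z p i))) → LinearIndependent ℚ z → l ≤ C * (r * (r + 1)) by
    intro d l r V z
    exact H r d l V z
  intro r
  induction r using Nat.strong_induction_on with
  | _ r ihr =>
  -- the case without rational relations
  have caseB : 0 < r → ∀ (d : ℕ) (l : ℕ) (V : Submodule K (Fin d → K)) (z : Fin l → Fin d → K),
      finrank K V = r → (∀ q : Fin d → ℚ, (fun i => (q i : K)) ∈ V → q = 0) → (∀ p, z p ∈ V) →
      (∀ p i, Al θ (Complex.exp (L * z p i))) → LinearIndependent ℚ z →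
      (∀ c : Fin d → ℚ, (∀ v ∈ V, ∑ i, (c i : K) * v i = 0) → c = 0) → l ≤ C * (r * (r + 1)) := by
    intro hr d l V z hV hq hzV hze hz hB
    have hle : r ≤ d := by
      rw [← hV]
      refine (Submodule.finrank_le V).trans ?_
      simp
    have hlt : r < d := by
      rcases hle.lt_or_eq with h | h
      · exact h
      · exfalso
        have hd : 0 < d := by omega
        have htop : V = ⊤ := Submodule.eq_top_of_finrank_eq (by rw [hV, h]; simp)
        have h1 := hq (Pi.single ⟨0, hd⟩ 1) (by rw [htop]; trivial)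
        have h2 := congrFun h1 ⟨0, hd⟩
        simp at h2
    obtain ⟨V'', G, hVV, hrr, hG, hcount⟩ := hstep θ hθ K hK d l r V z hV hr hlt hB hzV hze
    obtain ⟨s, hsG, hs⟩ := new_points z hz G
    have h1 := ihr (finrank K V'') hrr d (finrank ℤ G) V'' (fun k => ∑ p, (s k p : K) • z p) rfl
      (fun q hqV => hq q (hVV hqV)) (fun k => hG _ (hsG k))
      (fun k i => al_exp z hze (s k) i) hs
    omega
  intro d
  induction d with
  | zero =>
    intro l V z hV hq hzV hze hz
    rcases Nat.eq_zero_or_pos l with h | h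
    · rw [h]; exact Nat.zero_le _
    · exfalso
      exact hz.ne_zero ⟨0, h⟩ (Subsingleton.elim _ _)
  | succ d ihd =>
    intro l V z hV hq hzV hze hz
    rcases Nat.eq_zero_or_pos r with hr | hr
    · rcases Nat.eq_zero_or_pos l with h | h
      · rw [h]; exact Nat.zero_le _
      · exfalso
        have hbot : V = ⊥ := Submodule.finrank_eq_zero.1 (hV.trans hr)
        have h1 := hzV ⟨0, h⟩
        rw [hbot, Submodule.mem_bot] at h1
        exact hz.ne_zero ⟨0, h⟩ h1
    · by_cases hA : ∃ c : Fin (d + 1) → ℚ, c ≠ 0 ∧ ∀ v ∈ V, ∑ i, (c i : K) * v i = 0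
      · obtain ⟨c, hc, hcV⟩ := hA
        exact case_a ihd l V z hV hq hzV hze hz c hc hcV
      · push Not at hA
        refine caseB hr (d + 1) l V z hV hq hzV hze hz fun c hc => ?_
        by_contra hne
        obtain ⟨v, hv, hv0⟩ := hA c hne
        exact hv0 (hc v hv)

end Pool.Agent.W64.TD
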